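import Pool.Agent.Helper25.HL.Goals2

/-!
# Packet HL-EBS (MP_03bcbb_an): the ridge form is small outside a space of small dimension
-/

set_option autoImplicit false

open Pool.Agent.Helper25.HL Matrix
open scoped ComplexOrder

noncomputable section

namespace Pool.Agent.Helper82.HL

variable {p q : ℕ}

theorem XS_psd (σ : Fin p → Fin q → Bool) (S : Finset (Fin q)) : (XS σ S).PosSemidef := by
  have h : XS σ S = ∑ t ∈ S, vecMulVec (fun a => ((Rm σ a t : ℝ) : ℂ))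
      (star (fun a => ((Rm σ a t : ℝ) : ℂ))) := by
    ext a b
    rw [Matrix.sum_apply]
    refine Finset.sum_congr rfl fun t _ => ?_
    simp [vecMulVec_apply]
  rw [h]
  exact posSemidef_sum _ (fun t _ => posSemidef_vecMulVec_self_star _)

theorem XS_trace (σ : Fin p → Fin q → Bool) (S : Finset (Fin q)) (hp : 1 ≤ p) :
    (XS σ S).trace = (S.card : ℂ) := by
  have hp' : (0 : ℝ) < p := by exact_mod_cast hp
  have h1 : ∀ a t, ((Rm σ a t : ℝ) : ℂ) * ((Rm σ a t : ℝ) : ℂ) = ((1 / p : ℝ) : ℂ) := by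
    intro a t
    rw [← Complex.ofReal_mul]
    congr 1
    unfold Rm
    rw [div_mul_div_comm, Real.mul_self_sqrt hp'.le]
    congr 1
    split_ifs <;> norm_num
  change ∑ a, ∑ t ∈ S, ((Rm σ a t : ℝ) : ℂ) * ((Rm σ a t : ℝ) : ℂ) = _
  simp only [h1, Finset.sum_const, Finset.card_univ, Fintype.card_fin, nsmul_eq_mul]
  push_cast
  field_simp

theorem ip_eq (x y : Fin p → ℂ) :
    ip x y = inner ℂ (WithLp.toLp 2 x) (WithLp.toLp 2 y) := by
  rw [EuclideanSpace.inner_eq_star_dotProduct]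
  unfold ip dotProduct
  refine Finset.sum_congr rfl fun t _ => ?_
  simp [mul_comm]

theorem sq_eq (x : Fin p → ℂ) : Pool.Agent.Helper25.HL.sq x = ‖(WithLp.toLp 2 x : EuclideanSpace ℂ (Fin p))‖ ^ 2 := by
  rw [EuclideanSpace.norm_sq_eq]
  rfl

section

variable (σ : Fin p → Fin q → Bool) (S : Finset (Fin q)) (Λ : ℝ)

/-- eigenvectors -/
def eb : OrthonormalBasis (Fin p) ℂ (EuclideanSpace ℂ (Fin p)) :=
  (XS_psd σ S).isHermitian.eigenvectorBasis

/-- eigenvalues -/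
def ev (k : Fin p) : ℝ := (XS_psd σ S).isHermitian.eigenvalues k

/-- eigenvalues of the ridge operator -/
def bb (k : Fin p) : ℝ := ev σ S k / (Λ ^ 2 + ev σ S k)

theorem ev_nonneg (k : Fin p) : 0 ≤ ev σ S k := (XS_psd σ S).eigenvalues_nonneg k

theorem ev_sum (hp : 1 ≤ p) : ∑ k, ev σ S k = S.card := by
  have h := (XS_psd σ S).isHermitian.trace_eq_sum_eigenvalues
  rw [XS_trace σ S hp] at h
  have h2 : ((∑ k, ev σ S k : ℝ) : ℂ) = ((S.card : ℝ) : ℂ) := by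
    push_cast
    exact h.symm
  exact_mod_cast h2

theorem mulVec_eb (k : Fin p) :
    XS σ S *ᵥ (eb σ S k).ofLp = ((ev σ S k : ℝ) : ℂ) • (eb σ S k).ofLp := by
  have h := (XS_psd σ S).isHermitian.mulVec_eigenvectorBasis k
  refine h.trans ?_
  funext a
  simp [ev, eb]

theorem QS_eb (hΛ : 1 ≤ Λ) (k : Fin p) :
    QS σ S Λ *ᵥ (eb σ S k).ofLp =
      (((Λ ^ 2 + ev σ S k)⁻¹ : ℝ) : ℂ) • (eb σ S k).ofLp := by
  have hΛ2 : (0 : ℝ) < Λ ^ 2 := by positivity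
  have hpos : (0 : ℝ) < Λ ^ 2 + ev σ S k := by
    have := ev_nonneg σ S k
    linarith
  set M : Matrix (Fin p) (Fin p) ℂ :=
    ((Λ ^ 2 : ℝ) : ℂ) • (1 : Matrix (Fin p) (Fin p) ℂ) + XS σ S with hM
  have hMpd : M.PosDef := by
    rw [hM, add_comm]
    refine PosDef.posSemidef_add (XS_psd σ S) ?_
    refine PosDef.smul PosDef.one ?_
    exact_mod_cast hΛ2
  have hdet : IsUnit M.det := (Matrix.isUnit_iff_isUnit_det M).1 hMpd.isUnit
  have h1 : M *ᵥ (eb σ S k).ofLp = ((Λ ^ 2 + ev σ S k : ℝ) : ℂ) • (eb σ S k).ofLp := by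
    rw [hM, add_mulVec, mulVec_eb, smul_mulVec, one_mulVec, ← add_smul]
    push_cast
    rfl
  have h2 : M⁻¹ *ᵥ (M *ᵥ (eb σ S k).ofLp) = (eb σ S k).ofLp := by
    rw [mulVec_mulVec, nonsing_inv_mul M hdet, one_mulVec]
  rw [h1, mulVec_smul] at h2
  change M⁻¹ *ᵥ (eb σ S k).ofLp = _
  have h3 : (((Λ ^ 2 + ev σ S k)⁻¹ : ℝ) : ℂ) •
      (((Λ ^ 2 + ev σ S k : ℝ) : ℂ) • M⁻¹ *ᵥ (eb σ S k).ofLp) =
      (((Λ ^ 2 + ev σ S k)⁻¹ : ℝ) : ℂ) • (eb σ S k).ofLp := by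
    rw [h2]
  rw [← h3, smul_smul, ← Complex.ofReal_mul, inv_mul_cancel₀ hpos.ne', Complex.ofReal_one,
    one_smul]

theorem XQ_eb (hΛ : 1 ≤ Λ) (k : Fin p) :
    (XS σ S * QS σ S Λ) *ᵥ (eb σ S k).ofLp = ((bb σ S Λ k : ℝ) : ℂ) • (eb σ S k).ofLp := by
  rw [← mulVec_mulVec, QS_eb σ S Λ hΛ k, mulVec_smul, mulVec_eb, smul_smul,
    ← Complex.ofReal_mul]
  congr 2
  unfold bb
  rw [div_eq_mul_inv, mul_comm]

theorem EB_eq (hΛ : 1 ≤ Λ) (v : Fin p → ℂ) :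
    EB σ S Λ v =
      ∑ k, bb σ S Λ k * ‖inner ℂ (eb σ S k) (WithLp.toLp 2 v)‖ ^ 2 := by
  set V : EuclideanSpace ℂ (Fin p) := WithLp.toLp 2 v with hV
  have h1 : V = ∑ k, (inner ℂ (eb σ S k) V) • eb σ S k := ((eb σ S).sum_repr' V).symm
  have h2 : v = ∑ k, (inner ℂ (eb σ S k) V) • (eb σ S k).ofLp := by
    have h3 : V.ofLp = (∑ k, (inner ℂ (eb σ S k) V) • eb σ S k).ofLp := congrArg _ h1
    have h4 : V.ofLp = v := rfl
    rw [h4, WithLp.ofLp_sum] at h3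
    exact h3
  have h5 : (XS σ S * QS σ S Λ) *ᵥ v =
      ∑ k, ((inner ℂ (eb σ S k) V) * ((bb σ S Λ k : ℝ) : ℂ)) • (eb σ S k).ofLp := by
    conv_lhs => rw [h2]
    rw [mulVec_sum]
    refine Finset.sum_congr rfl fun k _ => ?_
    rw [mulVec_smul, XQ_eb σ S Λ hΛ k, smul_smul]
  have h6 : (WithLp.toLp 2 ((XS σ S * QS σ S Λ) *ᵥ v) : EuclideanSpace ℂ (Fin p)) =
      ∑ k, ((inner ℂ (eb σ S k) V) * ((bb σ S Λ k : ℝ) : ℂ)) • eb σ S k := by
    rw [h5, WithLp.toLp_sum]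
    rfl
  unfold EB
  rw [ip_eq, h6, inner_sum, Complex.re_sum]
  refine Finset.sum_congr rfl fun k _ => ?_
  rw [inner_smul_right, ← inner_conj_symm V (eb σ S k)]
  have h7 : inner ℂ (eb σ S k) V * ((bb σ S Λ k : ℝ) : ℂ) *
      (starRingEnd ℂ) (inner ℂ (eb σ S k) V) =
      ((bb σ S Λ k * ‖inner ℂ (eb σ S k) V‖ ^ 2 : ℝ) : ℂ) := by
    have h8 : inner ℂ (eb σ S k) V * (starRingEnd ℂ) (inner ℂ (eb σ S k) V) =
        ((‖inner ℂ (eb σ S k) V‖ ^ 2 : ℝ) : ℂ) := by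
      rw [Complex.mul_conj, Complex.normSq_eq_norm_sq]
    rw [mul_right_comm, h8]
    push_cast
    ring
  rw [h7, Complex.ofReal_re]

end

theorem ebs : S_EBS := by
  intro p q σ S Λ ε₉ hp hΛ hε
  have hΛ2 : (0 : ℝ) < Λ ^ 2 := by positivity
  have hb0 : ∀ k, 0 ≤ bb σ S Λ k := fun k =>
    div_nonneg (ev_nonneg σ S k) (by have := ev_nonneg σ S k; linarith)
  have hb1 : ∀ k, bb σ S Λ k ≤ 1 := fun k =>
    div_le_one_of_le₀ (by linarith) (by have := ev_nonneg σ S k; linarith)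
  classical
  set T : Finset (Fin p) := Finset.univ.filter fun k => ε₉ < bb σ S Λ k with hT
  refine ⟨T.card, fun k a => (starRingEnd ℂ) ((eb σ S (T.equivFin.symm k).1).ofLp a), ?_, ?_, ?_⟩
  · have h1 : ∀ k ∈ T, ε₉ * Λ ^ 2 ≤ ev σ S k := by
      intro k hk
      have h2 : ε₉ < ev σ S k / (Λ ^ 2 + ev σ S k) := (Finset.mem_filter.1 hk).2
      have h3 : 0 ≤ ev σ S k := ev_nonneg σ S k
      rw [lt_div_iff₀ (by linarith)] at h2
      nlinarith [mul_nonneg hε.le h3]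
    calc (T.card : ℝ) * (ε₉ * Λ ^ 2) = ∑ _k ∈ T, ε₉ * Λ ^ 2 := by
          rw [Finset.sum_const, nsmul_eq_mul]
      _ ≤ ∑ k ∈ T, ev σ S k := Finset.sum_le_sum h1
      _ ≤ ∑ k, ev σ S k :=
          Finset.sum_le_sum_of_subset_of_nonneg (Finset.subset_univ _)
            (fun k _ _ => ev_nonneg σ S k)
      _ = S.card := ev_sum σ S hp
  · intro g
    set w : EuclideanSpace ℂ (Fin p) :=
      ∑ k, (starRingEnd ℂ) (g k) • eb σ S (T.equivFin.symm k).1 with hw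
    have hon : Orthonormal ℂ (fun k : Fin T.card => eb σ S (T.equivFin.symm k).1) := by
      refine (eb σ S).orthonormal.comp _ ?_
      intro k l hkl
      exact T.equivFin.symm.injective (Subtype.ext hkl)
    have h1 : ‖w‖ ^ 2 = ∑ k, ‖g k‖ ^ 2 := by
      have h2 : inner ℂ w w = ∑ k, (starRingEnd ℂ) ((starRingEnd ℂ) (g k)) *
          (starRingEnd ℂ) (g k) := by
        rw [hw]
        exact hon.inner_sum (fun k => (starRingEnd ℂ) (g k)) (fun k => (starRingEnd ℂ) (g k))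
          Finset.univ
      have h3 : (‖w‖ ^ 2 : ℝ) = (inner ℂ w w).re := by
        rw [inner_self_eq_norm_sq_to_K]
        norm_cast
      rw [h3, h2, Complex.re_sum]
      refine Finset.sum_congr rfl fun k _ => ?_
      rw [Complex.conj_conj, Complex.mul_conj, Complex.normSq_eq_norm_sq, Complex.ofReal_re]
    rw [← h1, EuclideanSpace.norm_sq_eq]
    refine le_of_eq (Finset.sum_congr rfl fun a _ => ?_)
    congr 1
    have h4 : w.ofLp a = ∑ k, (starRingEnd ℂ) (g k) * (eb σ S (T.equivFin.symm k).1).ofLp a := by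
      rw [hw, WithLp.ofLp_sum, Finset.sum_apply]
      rfl
    rw [h4, ← RCLike.norm_conj (∑ k, (starRingEnd ℂ) (g k) *
      (eb σ S (T.equivFin.symm k).1).ofLp a), map_sum]
    congr 1
    refine Finset.sum_congr rfl fun k _ => ?_
    rw [map_mul, RCLike.conj_conj]
  · intro v
    rw [EB_eq σ S Λ hΛ v, sq_eq v, ← (eb σ S).sum_sq_norm_inner_right (WithLp.toLp 2 v)]
    have h1 : ∀ k, ‖∑ a, (starRingEnd ℂ) ((eb σ S k).ofLp a) * v a‖ =
        ‖inner ℂ (eb σ S k) (WithLp.toLp 2 v)‖ := by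
      intro k
      congr 1
      rw [EuclideanSpace.inner_eq_star_dotProduct]
      unfold dotProduct
      refine Finset.sum_congr rfl fun a _ => ?_
      simp [mul_comm]
    simp only [h1]
    have h2 : ∑ k : Fin T.card, ‖inner ℂ (eb σ S (T.equivFin.symm k).1) (WithLp.toLp 2 v)‖ ^ 2 =
        ∑ k ∈ T, ‖inner ℂ (eb σ S k) (WithLp.toLp 2 v)‖ ^ 2 := by
      rw [← Finset.sum_coe_sort T]
      exact Fintype.sum_equiv T.equivFin.symm _ _ (fun k => rfl)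
    rw [h2, Finset.mul_sum]
    have h3 : ∑ k ∈ T, ‖inner ℂ (eb σ S k) (WithLp.toLp 2 v)‖ ^ 2 =
        ∑ k, if k ∈ T then ‖inner ℂ (eb σ S k) (WithLp.toLp 2 v)‖ ^ 2 else 0 := by
      rw [Finset.sum_ite_mem, Finset.univ_inter]
    rw [h3, ← Finset.sum_add_distrib]
    refine Finset.sum_le_sum fun k _ => ?_
    have h4 : 0 ≤ ‖inner ℂ (eb σ S k) (WithLp.toLp 2 v)‖ ^ 2 := by positivity
    by_cases hk : k ∈ T
    · rw [if_pos hk]
      nlinarith [hb1 k, mul_nonneg hε.le h4]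
    · rw [if_neg hk]
      have h5 : bb σ S Λ k ≤ ε₉ := by
        by_contra h6
        exact hk (Finset.mem_filter.2 ⟨Finset.mem_univ _, not_le.1 h6⟩)
      nlinarith

end Pool.Agent.Helper82.HL
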